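import Pool.Agent.R665.FJ.Crit

/-!
# Amalgamated products with a homomorphism which is injective on the amalgamated subgroup
-/

set_option autoImplicit false

namespace Pool.Agent.R665.FJ

open Pool.Agent.Y110.FJ
open Pool.Agent.Y462.SS (Closed Wr)

section coc

variable {Q A : Type} [Group Q] [Group A] (K : Subgroup Q) (j : K →* A)

open Classical in
/-- representatives, `1` for the trivial coset -/
noncomputable def rep (x : Q ⧸ K) : Q := if x = ((1 : Q) : Q ⧸ K) then 1 else x.out

theorem rep_mk (x : Q ⧸ K) : ((rep K x : Q) : Q ⧸ K) = x := by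
  unfold rep
  split_ifs with h
  · exact h.symm
  · exact x.out_eq'

theorem rep_one : rep K ((1 : Q) : Q ⧸ K) = 1 := by
  unfold rep
  rw [if_pos rfl]

theorem rep_mem (q : Q) (x : Q ⧸ K) : (rep K (q • x))⁻¹ * q * rep K x ∈ K := by
  rw [mul_assoc, ← QuotientGroup.eq, rep_mk]
  show q • x = q • ((rep K x : Q) : Q ⧸ K)
  rw [rep_mk]

/-- the cosets of `K`, countably many copies -/
abbrev Ys (K : Subgroup Q) : Type := (Q ⧸ K) × ℕ

/-- the values of the cocycle -/
noncomputable def cv (q : Q) (x : Q ⧸ K) : A := j ⟨(rep K (q • x))⁻¹ * q * rep K x, rep_mem K q x⟩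

theorem cv_mul (p q : Q) (x : Q ⧸ K) : cv K j (p * q) x = cv K j p (q • x) * cv K j q x := by
  unfold cv
  rw [← map_mul]
  congr 1
  apply Subtype.ext
  show (rep K ((p * q) • x))⁻¹ * (p * q) * rep K x =
    (rep K (p • q • x))⁻¹ * p * rep K (q • x) * ((rep K (q • x))⁻¹ * q * rep K x)
  rw [mul_smul]
  group

theorem cv_one (x : Q ⧸ K) : cv K j 1 x = 1 := by
  have h := cv_mul K j 1 1 x
  rw [one_mul, one_smul] at h
  exact left_eq_mul.1 h

theorem cv_base (k : K) : cv K j k ((1 : Q) : Q ⧸ K) = j k := by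
  unfold cv
  congr 1
  apply Subtype.ext
  show (rep K ((k : Q) • ((1 : Q) : Q ⧸ K)))⁻¹ * k * rep K ((1 : Q) : Q ⧸ K) = k
  have h : (k : Q) • ((1 : Q) : Q ⧸ K) = ((1 : Q) : Q ⧸ K) := by
    show (((k : Q) * 1 : Q) : Q ⧸ K) = _
    rw [mul_one, QuotientGroup.eq]
    simp
  rw [h, rep_one]
  group

theorem smul_base (k : K) : (k : Q) • ((1 : Q) : Q ⧸ K) = ((1 : Q) : Q ⧸ K) := by
  show (((k : Q) * 1 : Q) : Q ⧸ K) = _
  rw [mul_one, QuotientGroup.eq]
  simp

theorem smul_eq_base (k : K) (x : Q ⧸ K) : (k : Q) • x = ((1 : Q) : Q ⧸ K) ↔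
    x = ((1 : Q) : Q ⧸ K) := by
  constructor
  · intro h
    rw [← smul_base K k] at h
    exact MulAction.injective (k : Q) h
  · rintro rfl
    exact smul_base K k

/-- the cocycle as a homomorphism to the wreath product over the copies of the cosets -/
noncomputable def psi : Q →* Wr (Ys K) A where
  toFun q := ⟨fun y => cv K j q y.1, (MulAction.toPerm q).prodCongr (Equiv.refl ℕ)⟩
  map_one' := by
    apply Wr.ext
    · funext y
      exact cv_one K j y.1
    · ext y
      · simp
      · simp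
  map_mul' p q := by
    apply Wr.ext
    · funext y
      exact cv_mul K j p q y.1
    · ext y
      · simp [mul_smul]
      · simp

@[simp] theorem psi_s (q : Q) (y : Ys K) : (psi K j q).s y = cv K j q y.1 := rfl
@[simp] theorem psi_p (q : Q) (y : Ys K) : (psi K j q).p y = (q • y.1, y.2) := rfl

end coc

section trans

variable {X Y A : Type} [Group A]

/-- transport along a bijection -/
def trans (e : X ≃ Y) : Wr Y A →* Wr X A where
  toFun w := ⟨fun x => w.s (e x), (e.trans w.p).trans e.symm⟩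
  map_one' := by
    apply Wr.ext
    · rfl
    · ext x
      simp
  map_mul' a b := by
    apply Wr.ext
    · funext x
      simp
    · ext x
      simp

@[simp] theorem trans_s (e : X ≃ Y) (w : Wr Y A) (x : X) : (trans e w).s x = w.s (e x) := rfl
@[simp] theorem trans_p (e : X ≃ Y) (w : Wr Y A) (x : X) : (trans e w).p x = e.symm (w.p (e x)) := rfl

/-- one more point with a homomorphism at it -/
def opt {H : Type} [Group H] (u : H →* A) (w : H →* Wr Y A) : H →* Wr (Option Y) A where
  toFun h := ⟨fun o => o.elim (u h) (fun y => (w h).s y), (w h).p.optionCongr⟩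
  map_one' := by
    apply Wr.ext
    · funext o
      cases o <;> simp
    · ext o
      cases o <;> simp
  map_mul' a b := by
    apply Wr.ext
    · funext o
      cases o <;> simp
    · apply Equiv.ext
      intro o
      cases o <;> simp

@[simp] theorem opt_s_none {H : Type} [Group H] (u : H →* A) (w : H →* Wr Y A) (h : H) :
    (opt u w h).s none = u h := rfl
@[simp] theorem opt_s_some {H : Type} [Group H] (u : H →* A) (w : H →* Wr Y A) (h : H) (y : Y) :
    (opt u w h).s (some y) = (w h).s y := rfl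
@[simp] theorem opt_p_none {H : Type} [Group H] (u : H →* A) (w : H →* Wr Y A) (h : H) :
    (opt u w h).p none = none := rfl
@[simp] theorem opt_p_some {H : Type} [Group H] (u : H →* A) (w : H →* Wr Y A) (h : H) (y : Y) :
    (opt u w h).p (some y) = some ((w h).p y) := rfl

end trans

section hotel

variable {Q : Type} [Group Q] (K : Subgroup Q)

open Classical in
/-- the trivial coset is shifted -/
noncomputable def hotel : Option (Ys K) ≃ Ys K where
  toFun o := match o with
    | none => (((1 : Q) : Q ⧸ K), 0)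
    | some (x, n) => if x = ((1 : Q) : Q ⧸ K) then (x, n + 1) else (x, n)
  invFun y := match y with
    | (x, 0) => if x = ((1 : Q) : Q ⧸ K) then none else some (x, 0)
    | (x, n + 1) => if x = ((1 : Q) : Q ⧸ K) then some (x, n) else some (x, n + 1)
  left_inv := by
    rintro (_ | ⟨x, n⟩)
    · simp
    · by_cases hx : x = ((1 : Q) : Q ⧸ K)
      · simp [hx]
      · cases n <;> simp [hx]
  right_inv := by
    rintro ⟨x, _ | n⟩
    · by_cases hx : x = ((1 : Q) : Q ⧸ K)
      · simp [hx]
      · simp [hx]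
    · by_cases hx : x = ((1 : Q) : Q ⧸ K)
      · simp [hx]
      · simp [hx]

theorem hotel_none : hotel K none = (((1 : Q) : Q ⧸ K), 0) := rfl

theorem hotel_fst (y : Ys K) : (hotel K (some y)).1 = y.1 := by
  classical
  obtain ⟨x, n⟩ := y
  show (if x = ((1 : Q) : Q ⧸ K) then (x, n + 1) else (x, n)).1 = x
  split_ifs <;> rfl

theorem hotel_some_base (n : ℕ) : hotel K (some (((1 : Q) : Q ⧸ K), n)) =
    (((1 : Q) : Q ⧸ K), n + 1) := by
  classical
  show (if ((1 : Q) : Q ⧸ K) = ((1 : Q) : Q ⧸ K) then (((1 : Q) : Q ⧸ K), n + 1) else _) = _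
  rw [if_pos rfl]

theorem hotel_some_ne (x : Q ⧸ K) (n : ℕ) (hx : x ≠ ((1 : Q) : Q ⧸ K)) :
    hotel K (some (x, n)) = (x, n) := by
  classical
  show (if x = ((1 : Q) : Q ⧸ K) then (x, n + 1) else (x, n)) = _
  rw [if_neg hx]

/-- the hotel commutes with `K` -/
theorem hotel_smul (k : K) (y : Ys K) : hotel K (some ((k : Q) • y.1, y.2)) =
    ((k : Q) • (hotel K (some y)).1, (hotel K (some y)).2) := by
  obtain ⟨x, n⟩ := y
  by_cases hx : x = ((1 : Q) : Q ⧸ K)
  · subst hx
    show hotel K (some ((k : Q) • ((1 : Q) : Q ⧸ K), n)) = _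
    rw [smul_base, hotel_some_base, smul_base]
  · have h1 : (k : Q) • x ≠ ((1 : Q) : Q ⧸ K) := fun h => hx ((smul_eq_base K k x).1 h)
    show hotel K (some ((k : Q) • x, n)) = _
    rw [hotel_some_ne K _ n h1, hotel_some_ne K x n hx]

end hotel

section am

variable {G Q : Type} [Group G] [Group Q]

/-- the kernel on the two factors -/
def ker2 (A B : Subgroup G) (f : G →* Q) : Set G := {x | (x ∈ A ∨ x ∈ B) ∧ f x = 1}

theorem quot_mem {C : ∀ (G : Type) [Group G], Prop} (hC : ClosedE C) (hQ : C Q)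
    (A B K : Subgroup G) (hamg : Amg A B K) (f : G →* Q) :
    C (G ⧸ Subgroup.normalClosure (ker2 A B f)) := by
  set R := Subgroup.normalClosure (ker2 A B f) with hR
  have hRf : R ≤ f.ker := Subgroup.normalClosure_le_normal fun x hx => hx.2
  let π := QuotientGroup.mk' R
  have hπ : ∀ x, (x ∈ A ∨ x ∈ B) → f x = 1 → π x = 1 := by
    intro x hx hfx
    exact (QuotientGroup.eq_one_iff x).2 (Subgroup.subset_normalClosure ⟨hx, hfx⟩)
  have ham : Amg (A.map π) (B.map π) (K.map π) := by
    refine ⟨Subgroup.map_mono hamg.le_left, Subgroup.map_mono hamg.le_right, ?_, ?_⟩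
    · rw [← Subgroup.map_sup, hamg.gen]
      exact Subgroup.map_top_of_surjective π (QuotientGroup.mk'_surjective R)
    · intro H _ u v huv
      let iA : A →* A.map π := π.subgroupMap A
      let iB : B →* B.map π := π.subgroupMap B
      obtain ⟨h, hA, hB⟩ := hamg.univ H (u.comp iA) (v.comp iB) (by
        intro c hc
        exact huv (π c) ⟨c, hc, rfl⟩)
      have hker : R ≤ h.ker := by
        refine Subgroup.normalClosure_le_normal ?_
        rintro x ⟨hx | hx, hfx⟩
        · show h x = 1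
          have h1 : h x = u (iA ⟨x, hx⟩) := hA ⟨x, hx⟩
          have h2 : iA ⟨x, hx⟩ = 1 := Subtype.ext (hπ x (Or.inl hx) hfx)
          rw [h1, h2, map_one]
        · show h x = 1
          have h1 : h x = v (iB ⟨x, hx⟩) := hB ⟨x, hx⟩
          have h2 : iB ⟨x, hx⟩ = 1 := Subtype.ext (hπ x (Or.inr hx) hfx)
          rw [h1, h2, map_one]
      refine ⟨QuotientGroup.lift R h hker, ?_, ?_⟩
      · rintro ⟨_, a, ha, rfl⟩
        exact hA ⟨a, ha⟩
      · rintro ⟨_, b, hb, rfl⟩
        exact hB ⟨b, hb⟩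
  refine Pool.Agent.Y417.FJ.t_am (Pool.Agent.Y961.FJ.t_perm Pool.Agent.Y529.FJ.t_ext) C hC
    (G ⧸ R) Q _ _ _ ham (QuotientGroup.lift R f hRf) ?_ ?_ hQ
  · rintro _ ⟨a, ha, rfl⟩ h
    exact hπ a (Or.inl ha) h
  · rintro _ ⟨b, hb, rfl⟩ h
    exact hπ b (Or.inr hb) h

/-- a homomorphism to a group in the class which is injective on the first factor -/
theorem side {C : ∀ (G : Type) [Group G], Prop} (hC : ClosedE C) (A B K : Subgroup G)
    (hA : C A) (hQ : C Q) (hamg : Amg A B K) (f : G →* Q) (hK : ∀ k ∈ K, f k = 1 → k = 1) :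
    ∃ (P : Type) (_ : Group P) (F : G →* P), C P ∧ ∀ a ∈ A, F a = 1 → a = 1 := by
  let fK : K →* Q := f.comp K.subtype
  have hfK : Function.Injective fK := by
    rw [injective_iff_map_eq_one]
    intro k hk
    exact Subtype.ext (hK k k.2 hk)
  let K' : Subgroup Q := fK.range
  let e : K ≃* K' := MonoidHom.ofInjective hfK
  have he : ∀ k : K, ((e k : K') : Q) = f k := fun k => rfl
  let j : K' →* A := (Subgroup.inclusion hamg.le_left).comp e.symm.toMonoidHom
  have hj : ∀ k : K, j (e k) = ⟨k, hamg.le_left k.2⟩ := by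
    intro k
    show Subgroup.inclusion hamg.le_left (e.symm (e k)) = _
    rw [MulEquiv.symm_apply_apply]
    rfl
  let ψ : Q →* Wr (Ys K') A := psi K' j
  let ΦA : A →* Wr (Option (Ys K')) A := opt (MonoidHom.id A) (ψ.comp (f.comp A.subtype))
  let ΦB : B →* Wr (Option (Ys K')) A := (trans (hotel K')).comp (ψ.comp (f.comp B.subtype))
  obtain ⟨Φ, hΦA, hΦB⟩ := hamg.univ (Wr (Option (Ys K')) A) ΦA ΦB (by
    intro c hc
    have hk : f c = ((e ⟨c, hc⟩ : K') : Q) := rfl
    have hjk : j (e ⟨c, hc⟩) = ⟨c, hamg.le_left hc⟩ := hj ⟨c, hc⟩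
    apply Wr.ext
    · funext o
      rcases o with _ | y
      · show (⟨c, hamg.le_left hc⟩ : A) = cv K' j (f c) (hotel K' none).1
        rw [hotel_none, hk, cv_base, hjk]
      · show cv K' j (f c) y.1 = cv K' j (f c) (hotel K' (some y)).1
        rw [hotel_fst]
    · apply Equiv.ext
      intro o
      rcases o with _ | y
      · show none = (hotel K').symm (f c • (hotel K' none).1, (hotel K' none).2)
        rw [Equiv.eq_symm_apply, hotel_none, hk, smul_base]
      · show some (f c • y.1, y.2) =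
          (hotel K').symm (f c • (hotel K' (some y)).1, (hotel K' (some y)).2)
        rw [Equiv.eq_symm_apply, hk]
        exact hotel_smul K' (e ⟨c, hc⟩) y)
  let R := Subgroup.normalClosure (ker2 A B f)
  let π : G →* G ⧸ R := QuotientGroup.mk' R
  have hZ : C (G ⧸ R) := quot_mem hC hQ A B K hamg f
  -- finitely supported images
  let S0 : Subgroup G :=
    { carrier := {g | ∃ T : Set (Option (Ys K')), T.Finite ∧ Φ g ∈ supp _ A T}
      one_mem' := ⟨∅, Set.finite_empty, by rw [map_one]; exact one_mem _⟩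
      mul_mem' := by
        rintro a b ⟨T, hT, hT'⟩ ⟨U, hU, hU'⟩
        refine ⟨T ∪ U, hT.union hU, ?_⟩
        rw [map_mul]
        refine mul_mem ⟨hT'.1, fun v hv => hT'.2 v fun h => hv (Or.inl h)⟩
          ⟨hU'.1, fun v hv => hU'.2 v fun h => hv (Or.inr h)⟩
      inv_mem' := by
        rintro a ⟨T, hT, hT'⟩
        refine ⟨T, hT, ?_⟩
        rw [map_inv]
        exact inv_mem hT' }
  have hS0 : S0.Normal := ⟨by
    rintro a ⟨T, hT, hT'⟩ g
    refine ⟨(Φ g).p '' T, hT.image _, ?_⟩
    rw [map_mul, map_mul, map_inv]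
    refine ⟨conj_p _ _ hT'.1, fun v hv => ?_⟩
    have h1 : v = (Φ g).p ((Φ g).p.symm v) := by simp
    rw [h1, conj_s _ _ hT'.1, hT'.2, mul_one, mul_inv_cancel]
    intro h2
    exact hv ⟨_, h2, by simp⟩⟩
  have hRS : R ≤ S0 := by
    refine Subgroup.normalClosure_le_normal ?_
    rintro x ⟨hx | hx, hfx⟩
    · refine ⟨{none}, Set.finite_singleton _, ?_⟩
      have h1 : Φ x = ΦA ⟨x, hx⟩ := hΦA ⟨x, hx⟩
      have h2 : ψ (f x) = 1 := by rw [hfx, map_one]
      rw [h1]
      constructor
      · apply Equiv.ext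
        intro o
        rcases o with _ | y
        · rfl
        · show some ((ψ (f x)).p y) = some y
          rw [h2]; rfl
      · intro o ho
        rcases o with _ | y
        · exact absurd rfl ho
        · show (ψ (f x)).s y = 1
          rw [h2]; rfl
    · refine ⟨∅, Set.finite_empty, ?_⟩
      have h1 : Φ x = ΦB ⟨x, hx⟩ := hΦB ⟨x, hx⟩
      have h2 : ΦB ⟨x, hx⟩ = 1 := by
        show trans (hotel K') (ψ (f x)) = 1
        rw [hfx, map_one, map_one]
      rw [h1, h2]
      exact one_mem _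
  refine ⟨(Φ.prod π).range, inferInstance, (Φ.prod π).rangeRestrict, ?_, ?_⟩
  · refine wr_crit hC (Option (Ys K')) A (Φ.prod π).range (G ⧸ R) hA hZ
      ((MonoidHom.fst _ _).comp (Subgroup.subtype _)) ((MonoidHom.snd _ _).comp (Subgroup.subtype _)) ?_
    rintro ⟨_, g, rfl⟩ hr
    have hr' : π g = 1 := hr
    refine ⟨hRS ((QuotientGroup.eq_one_iff g).1 hr'), fun h => ?_⟩
    apply Subtype.ext
    exact Prod.ext h hr
  · intro a ha h
    have h1 : Φ a = 1 := congrArg (fun x => x.1.1) h
    have h2 : Φ a = ΦA ⟨a, ha⟩ := hΦA ⟨a, ha⟩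
    have h3 : (ΦA ⟨a, ha⟩).s none = 1 := by rw [← h2, h1]; rfl
    exact congrArg Subtype.val h3

theorem Amg.symm {A B K : Subgroup G} (h : Amg A B K) : Amg B A K := by
  refine ⟨h.le_right, h.le_left, by rw [sup_comm]; exact h.gen, ?_⟩
  intro H _ f g hfg
  obtain ⟨u, hA, hB⟩ := h.univ H g f (fun c hc => (hfg c hc).symm)
  exact ⟨u, hB, hA⟩

/-- **amalgamated products** with a homomorphism which is injective on the amalgamated subgroup -/
theorem am {C : ∀ (G : Type) [Group G], Prop} (hC : ClosedE C) (A B K : Subgroup G)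
    (hA : C A) (hB : C B) (hQ : C Q) (hamg : Amg A B K) (f : G →* Q)
    (hK : ∀ k ∈ K, f k = 1 → k = 1) : C G := by
  obtain ⟨P, _, F, hP, hF⟩ := side hC A B K hA hQ hamg f hK
  obtain ⟨P', _, F', hP', hF'⟩ := side hC B A K hB hQ (Amg.symm hamg) f hK
  refine Pool.Agent.Y417.FJ.t_am (Pool.Agent.Y961.FJ.t_perm Pool.Agent.Y529.FJ.t_ext) C hC
    G (P × P') A B K hamg (F.prod F') ?_ ?_ (hC.base.prod P P' hP hP')
  · intro a ha h
    exact hF a ha (congrArg Prod.fst h)
  · intro b hb h
    exact hF' b hb (congrArg Prod.snd h)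

end am

end Pool.Agent.R665.FJ
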