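import Pool.Agent.R665.FJ.Am

/-!
# HNN extensions with a homomorphism which is injective on the associated subgroups
-/

set_option autoImplicit false

namespace Pool.Agent.R665.FJ

open Pool.Agent.Y110.FJ
open Pool.Agent.Y462.SS (Closed Wr)

section tr2

variable {X Y A : Type} [Group A]

/-- transport along two bijections -/
def tr2 (e e' : X ≃ Y) (w : Wr Y A) : Wr X A :=
  ⟨fun x => w.s (e x), (e.trans w.p).trans e'.symm⟩

theorem tr2_mul (e e' : X ≃ Y) (w u : Wr Y A) : tr2 e e' w * trans e u = tr2 e e' (w * u) := by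
  apply Wr.ext
  · funext x
    simp [tr2]
  · ext x
    simp [tr2]

theorem mul_tr2 (e e' : X ≃ Y) (w u : Wr Y A) : trans e' u * tr2 e e' w = tr2 e e' (u * w) := by
  apply Wr.ext
  · funext x
    simp [tr2]
  · ext x
    simp [tr2]

/-- the sum of two homomorphisms to wreath products -/
def sm {Z H : Type} [Group H] (u : H →* Wr Y A) (w : H →* Wr Z A) : H →* Wr (Y ⊕ Z) A where
  toFun h := ⟨Sum.elim (u h).s (w h).s, (u h).p.sumCongr (w h).p⟩
  map_one' := by
    apply Wr.ext
    · funext o
      cases o <;> simp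
    · apply Equiv.ext
      intro o
      cases o <;> simp
  map_mul' a b := by
    apply Wr.ext
    · funext o
      cases o <;> simp
    · apply Equiv.ext
      intro o
      cases o <;> simp

end tr2

section

variable {Q : Type} [Group Q] (K L : Subgroup Q)

/-- shift on the left summand -/
noncomputable def hoL : Option (Ys K ⊕ Ys L) ≃ Ys K ⊕ Ys L where
  toFun o := match o with
    | none => Sum.inl (hotel K none)
    | some (Sum.inl y) => Sum.inl (hotel K (some y))
    | some (Sum.inr y) => Sum.inr y
  invFun y := match y with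
    | Sum.inl y => ((hotel K).symm y).map Sum.inl
    | Sum.inr y => some (Sum.inr y)
  left_inv := by
    rintro (_ | y | y)
    · simp
    · simp
    · simp
  right_inv := by
    rintro (y | y)
    · obtain ⟨o, rfl⟩ := (hotel K).surjective y
      cases o <;> simp
    · simp

/-- shift on the right summand -/
noncomputable def hoR : Option (Ys K ⊕ Ys L) ≃ Ys K ⊕ Ys L where
  toFun o := match o with
    | none => Sum.inr (hotel L none)
    | some (Sum.inl y) => Sum.inl y
    | some (Sum.inr y) => Sum.inr (hotel L (some y))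
  invFun y := match y with
    | Sum.inl y => some (Sum.inl y)
    | Sum.inr y => ((hotel L).symm y).map Sum.inr
  left_inv := by
    rintro (_ | y | y)
    · simp
    · simp
    · simp
  right_inv := by
    rintro (y | y)
    · simp
    · obtain ⟨o, rfl⟩ := (hotel L).surjective y
      cases o <;> simp

end

section fin

/-- the general construction -/
theorem of_coc {C : ∀ (G : Type) [Group G], Prop} (hC : ClosedE C) {G V A : Type} [Group G]
    [Group A] (hA : C A) (Φ : G →* Wr V A) (s : Set G) (hZ : C (G ⧸ Subgroup.normalClosure s))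
    (hs : ∀ x ∈ s, ∃ T : Set V, T.Finite ∧ Φ x ∈ supp V A T) :
    ∃ (P : Type) (_ : Group P) (F : G →* P), C P ∧ ∀ g, F g = 1 → Φ g = 1 := by
  let R := Subgroup.normalClosure s
  let π : G →* G ⧸ R := QuotientGroup.mk' R
  let S0 : Subgroup G :=
    { carrier := {g | ∃ T : Set V, T.Finite ∧ Φ g ∈ supp _ A T}
      one_mem' := ⟨∅, Set.finite_empty, by rw [map_one]; exact one_mem _⟩
      mul_mem' := by
        rintro a b ⟨T, hT, hT'⟩ ⟨U, hU, hU'⟩
        refine ⟨T ∪ U, hT.union hU, ?_⟩
        rw [map_mul]
        refine mul_mem ⟨hT'.1, fun v hv => hT'.2 v fun h => hv (Or.inl h)⟩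
          ⟨hU'.1, fun v hv => hU'.2 v fun h => hv (Or.inr h)⟩
      inv_mem' := by
        rintro a ⟨T, hT, hT'⟩
        refine ⟨T, hT, ?_⟩
        rw [map_inv]
        exact inv_mem hT' }
  have hS0 : S0.Normal := ⟨by
    rintro a ⟨T, hT, hT'⟩ g
    refine ⟨(Φ g).p '' T, hT.image _, ?_⟩
    rw [map_mul, map_mul, map_inv]
    refine ⟨conj_p _ _ hT'.1, fun v hv => ?_⟩
    have h1 : v = (Φ g).p ((Φ g).p.symm v) := by simp
    rw [h1, conj_s _ _ hT'.1, hT'.2, mul_one, mul_inv_cancel]
    intro h2
    exact hv ⟨_, h2, by simp⟩⟩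
  have hRS : R ≤ S0 := Subgroup.normalClosure_le_normal hs
  refine ⟨(Φ.prod π).range, inferInstance, (Φ.prod π).rangeRestrict, ?_, ?_⟩
  · refine wr_crit hC V A (Φ.prod π).range (G ⧸ R) hA hZ
      ((MonoidHom.fst _ _).comp (Subgroup.subtype _)) ((MonoidHom.snd _ _).comp (Subgroup.subtype _)) ?_
    rintro ⟨_, g, rfl⟩ hr
    have hr' : π g = 1 := hr
    refine ⟨hRS ((QuotientGroup.eq_one_iff g).1 hr'), fun h => ?_⟩
    apply Subtype.ext
    exact Prod.ext h hr
  · intro g h
    exact congrArg (fun x => x.1.1) h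

end fin

section hnn

variable {M Q : Type} [Group M] [Group Q] {A B : Subgroup M} {φ : A ≃* B}

open HNNExtension

/-- the kernel of `f` on the base -/
def kerB (f : HNNExtension M A B φ →* Q) : Set (HNNExtension M A B φ) :=
  {x | ∃ m : M, x = of m ∧ f (of m) = 1}

theorem quot_hnn {C : ∀ (G : Type) [Group G], Prop} (hC : ClosedE C) (hQ : C Q)
    (f : HNNExtension M A B φ →* Q) (hf : ∀ a ∈ A, f (of a) = 1 → a = 1) :
    C (HNNExtension M A B φ ⧸ Subgroup.normalClosure (kerB f)) := by
  set R := Subgroup.normalClosure (kerB f) with hR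
  let π := QuotientGroup.mk' R
  have hconj : ∀ a : A, f (of (φ a : M)) = f t * f (of (a : M)) * (f t)⁻¹ := by
    intro a
    rw [equiv_eq_conj]
    simp
  have hfB : ∀ b ∈ B, f (of b) = 1 → b = 1 := by
    intro b hb h
    have h1 := hconj (φ.symm ⟨b, hb⟩)
    rw [MulEquiv.apply_symm_apply] at h1
    have h2 : f (of ((φ.symm ⟨b, hb⟩ : A) : M)) = 1 := by
      have h3 : f (of b) = f t * f (of ((φ.symm ⟨b, hb⟩ : A) : M)) * (f t)⁻¹ := h1
      rw [h] at h3
      have h4 := conj_eq_one_iff.1 h3.symm
      exact h4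
    have h3 := hf _ (φ.symm ⟨b, hb⟩).2 h2
    have h4 : φ.symm ⟨b, hb⟩ = 1 := Subtype.ext h3
    have h5 : (⟨b, hb⟩ : B) = 1 := by
      rw [← φ.apply_symm_apply ⟨b, hb⟩, h4, map_one]
    exact congrArg Subtype.val h5
  -- the image of the base
  let u : M →* Q := f.comp of
  let Mb : Subgroup Q := u.range
  let u' : M →* Mb := u.rangeRestrict
  have hinjA : Function.Injective (u'.comp A.subtype) := by
    rw [injective_iff_map_eq_one]
    intro a ha
    exact Subtype.ext (hf a a.2 (congrArg Subtype.val ha))
  have hinjB : Function.Injective (u'.comp B.subtype) := by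
    rw [injective_iff_map_eq_one]
    intro b hb
    exact Subtype.ext (hfB b b.2 (congrArg Subtype.val hb))
  let Ab : Subgroup Mb := (u'.comp A.subtype).range
  let Bb : Subgroup Mb := (u'.comp B.subtype).range
  let eA : A ≃* Ab := MonoidHom.ofInjective hinjA
  let eB : B ≃* Bb := MonoidHom.ofInjective hinjB
  let φb : Ab ≃* Bb := eA.symm.trans (φ.trans eB)
  have hφb : ∀ a : A, φb (eA a) = eB (φ a) := fun a => by
    show eB (φ (eA.symm (eA a))) = _
    rw [MulEquiv.symm_apply_apply]
  have heA : ∀ a : A, ((eA a : Ab) : Mb) = u' a := fun a => rfl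
  have heB : ∀ b : B, ((eB b : Bb) : Mb) = u' b := fun b => rfl
  have hsA : ∀ x : Ab, ∃ a : A, eA a = x := fun x => eA.surjective x
  have hHN : C (HNNExtension Mb Ab Bb φb) := by
    refine Pool.Agent.R779.FJ.t_hnn (Pool.Agent.Y961.FJ.t_perm Pool.Agent.Y529.FJ.t_ext) C hC
      Mb Q Ab Bb φb (lift Mb.subtype (f t) ?_) ?_ hQ
    · intro x
      obtain ⟨a, rfl⟩ := hsA x
      rw [hφb, heA, heB]
      show f t * f (of (a : M)) = f (of (φ a : M)) * f t
      rw [hconj]
      group
    · intro x y hxy
      have h1 : Mb.subtype x = Mb.subtype y := by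
        simpa only [MonoidHom.comp_apply, lift_of] using hxy
      exact Subtype.ext h1
  -- the homomorphism to the quotient
  have hk : ∀ m : M, f (of m) = 1 → π (of m) = 1 := by
    intro m hm
    exact (QuotientGroup.eq_one_iff _).2 (Subgroup.subset_normalClosure ⟨m, rfl, hm⟩)
  let v : Mb →* HNNExtension M A B φ ⧸ R :=
    u'.liftOfRightInverse (Function.surjInv u.rangeRestrict_surjective)
      (Function.rightInverse_surjInv u.rangeRestrict_surjective) ⟨π.comp of, by
        intro m hm
        exact hk m (congrArg Subtype.val hm)⟩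
  have hv : ∀ m : M, v (u' m) = π (of m) := by
    intro m
    exact MonoidHom.liftOfRightInverse_comp_apply _ _ _ _ m
  let w : HNNExtension Mb Ab Bb φb →* HNNExtension M A B φ ⧸ R := lift v (π t) (by
    intro x
    obtain ⟨a, rfl⟩ := hsA x
    rw [hφb, heA, heB, hv, hv, ← map_mul, ← map_mul, t_mul_of])
  let z : HNNExtension M A B φ →* HNNExtension Mb Ab Bb φb := lift (of.comp u') t (by
    intro a
    have h1 := t_mul_of (φ := φb) (eA a)
    rw [hφb] at h1
    exact h1)
  have hzR : R ≤ z.ker := by
    refine Subgroup.normalClosure_le_normal ?_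
    rintro _ ⟨m, rfl, hm⟩
    show z (of m) = 1
    have h1 : z (of m) = of (u' m) := by
      show lift (of.comp u') t _ (of m) = _
      rw [lift_of]; rfl
    have h2 : u' m = 1 := Subtype.ext hm
    rw [h1, h2, map_one]
  have hwz : w.comp z = π := by
    apply HNNExtension.hom_ext
    · ext m
      show w (z (of m)) = π (of m)
      have h1 : z (of m) = of (u' m) := by
        show lift (of.comp u') t _ (of m) = _
        rw [lift_of]; rfl
      have h2 : w (of (u' m)) = v (u' m) := by
        show lift v (π t) _ (of (u' m)) = _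
        rw [lift_of]
      rw [h1, h2, hv]
    · show w (z t) = π t
      have h1 : z t = t := by
        show lift (of.comp u') t _ t = _
        rw [lift_t]
      have h2 : w t = π t := by
        show lift v (π t) _ t = _
        rw [lift_t]
      rw [h1, h2]
  refine hC.base.of_injective _ _ (QuotientGroup.lift R z hzR) ?_ hHN
  rw [injective_iff_map_eq_one]
  intro x hx
  obtain ⟨g, rfl⟩ := QuotientGroup.mk'_surjective R x
  have h1 : z g = 1 := hx
  have h2 : π g = w (z g) := by rw [← hwz]; rfl
  show π g = 1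
  rw [h2, h1, map_one]

/-- **HNN extensions** with a homomorphism which is injective on the associated subgroups -/
theorem hn {C : ∀ (G : Type) [Group G], Prop} (hC : ClosedE C) (hM : C M) (hQ : C Q)
    (f : HNNExtension M A B φ →* Q) (hf : ∀ a ∈ A, f (of a) = 1 → a = 1) :
    C (HNNExtension M A B φ) := by
  have hconj : ∀ a : A, f (of (φ a : M)) = f t * f (of (a : M)) * (f t)⁻¹ := by
    intro a
    rw [equiv_eq_conj]
    simp
  have hfB : ∀ b ∈ B, f (of b) = 1 → b = 1 := by
    intro b hb h
    have h1 := hconj (φ.symm ⟨b, hb⟩)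
    rw [MulEquiv.apply_symm_apply] at h1
    have h2 : f (of ((φ.symm ⟨b, hb⟩ : A) : M)) = 1 := by
      have h3 : f (of b) = f t * f (of ((φ.symm ⟨b, hb⟩ : A) : M)) * (f t)⁻¹ := h1
      rw [h] at h3
      have h4 := conj_eq_one_iff.1 h3.symm
      exact h4
    have h3 := hf _ (φ.symm ⟨b, hb⟩).2 h2
    have h4 : φ.symm ⟨b, hb⟩ = 1 := Subtype.ext h3
    have h5 : (⟨b, hb⟩ : B) = 1 := by
      rw [← φ.apply_symm_apply ⟨b, hb⟩, h4, map_one]
    exact congrArg Subtype.val h5
  let u : M →* Q := f.comp of
  have hinjA : Function.Injective (u.comp A.subtype) := by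
    rw [injective_iff_map_eq_one]
    intro a ha
    exact Subtype.ext (hf a a.2 ha)
  have hinjB : Function.Injective (u.comp B.subtype) := by
    rw [injective_iff_map_eq_one]
    intro b hb
    exact Subtype.ext (hfB b b.2 hb)
  let KA : Subgroup Q := (u.comp A.subtype).range
  let KB : Subgroup Q := (u.comp B.subtype).range
  let eA : A ≃* KA := MonoidHom.ofInjective hinjA
  let eB : B ≃* KB := MonoidHom.ofInjective hinjB
  let jA : KA →* M := A.subtype.comp eA.symm.toMonoidHom
  let jB : KB →* M := B.subtype.comp eB.symm.toMonoidHom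
  have hjA : ∀ a : A, jA (eA a) = a := by
    intro a
    show ((eA.symm (eA a) : A) : M) = a
    rw [MulEquiv.symm_apply_apply]
  have hjB : ∀ b : B, jB (eB b) = b := by
    intro b
    show ((eB.symm (eB b) : B) : M) = b
    rw [MulEquiv.symm_apply_apply]
  let ψ : Q →* Wr (Ys KA ⊕ Ys KB) M := sm (psi KA jA) (psi KB jB)
  let Φ0 : M →* Wr (Option (Ys KA ⊕ Ys KB)) M := opt (MonoidHom.id M) (ψ.comp u)
  have hA : ∀ a : A, Φ0 a = trans (hoL KA KB) (ψ (u a)) := by
    intro a
    have hk : u a = ((eA a : KA) : Q) := rfl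
    apply Wr.ext
    · funext o
      rcases o with _ | y | y
      · show (a : M) = cv KA jA (u a) (hotel KA none).1
        rw [hotel_none, hk, cv_base, hjA]
      · show cv KA jA (u a) y.1 = cv KA jA (u a) (hotel KA (some y)).1
        rw [hotel_fst]
      · rfl
    · apply Equiv.ext
      intro o
      rcases o with _ | y | y
      · show none = (hoL KA KB).symm (Sum.inl (u a • (hotel KA none).1, (hotel KA none).2))
        rw [Equiv.eq_symm_apply, hotel_none, hk, smul_base]
        rfl
      · show some (Sum.inl (u a • y.1, y.2)) = (hoL KA KB).symm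
          (Sum.inl (u a • (hotel KA (some y)).1, (hotel KA (some y)).2))
        rw [Equiv.eq_symm_apply, hk]
        exact congrArg Sum.inl (hotel_smul KA (eA a) y)
      · show some (Sum.inr (u a • y.1, y.2)) = (hoL KA KB).symm (Sum.inr (u a • y.1, y.2))
        rw [Equiv.eq_symm_apply]
        rfl
  have hB : ∀ b : B, Φ0 b = trans (hoR KA KB) (ψ (u b)) := by
    intro b
    have hk : u b = ((eB b : KB) : Q) := rfl
    apply Wr.ext
    · funext o
      rcases o with _ | y | y
      · show (b : M) = cv KB jB (u b) (hotel KB none).1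
        rw [hotel_none, hk, cv_base, hjB]
      · rfl
      · show cv KB jB (u b) y.1 = cv KB jB (u b) (hotel KB (some y)).1
        rw [hotel_fst]
    · apply Equiv.ext
      intro o
      rcases o with _ | y | y
      · show none = (hoR KA KB).symm (Sum.inr (u b • (hotel KB none).1, (hotel KB none).2))
        rw [Equiv.eq_symm_apply, hotel_none, hk, smul_base]
        rfl
      · show some (Sum.inl (u b • y.1, y.2)) = (hoR KA KB).symm (Sum.inl (u b • y.1, y.2))
        rw [Equiv.eq_symm_apply]
        rfl
      · show some (Sum.inr (u b • y.1, y.2)) = (hoR KA KB).symm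
          (Sum.inr (u b • (hotel KB (some y)).1, (hotel KB (some y)).2))
        rw [Equiv.eq_symm_apply, hk]
        exact congrArg Sum.inr (hotel_smul KB (eB b) y)
  let Φ : HNNExtension M A B φ →* Wr (Option (Ys KA ⊕ Ys KB)) M :=
    lift Φ0 (tr2 (hoL KA KB) (hoR KA KB) (ψ (f t))) (by
      intro a
      rw [hA, hB, tr2_mul, mul_tr2, ← map_mul, ← map_mul]
      congr 2
      show f t * f (of (a : M)) = f (of (φ a : M)) * f t
      rw [hconj]
      group)
  obtain ⟨P, _, F, hP, hF⟩ := of_coc hC hM Φ (kerB f) (quot_hnn hC hQ f hf) (by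
    rintro _ ⟨m, rfl, hm⟩
    refine ⟨{none}, Set.finite_singleton _, ?_⟩
    have h1 : Φ (of m) = Φ0 m := lift_of _ _ _ m
    have h2 : ψ (u m) = 1 := by
      have : u m = 1 := hm
      rw [this, map_one]
    rw [h1]
    constructor
    · apply Equiv.ext
      intro o
      rcases o with _ | y
      · rfl
      · show some ((ψ (u m)).p y) = some y
        rw [h2]; rfl
    · intro o ho
      rcases o with _ | y
      · exact absurd rfl ho
      · show (ψ (u m)).s y = 1
        rw [h2]; rfl)
  refine Pool.Agent.R779.FJ.t_hnn (Pool.Agent.Y961.FJ.t_perm Pool.Agent.Y529.FJ.t_ext) C hC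
    M P A B φ F ?_ hP
  rw [injective_iff_map_eq_one]
  intro m hm
  have h1 : Φ (of m) = 1 := hF (of m) hm
  have h2 : Φ (of m) = Φ0 m := lift_of _ _ _ m
  have h3 : (Φ0 m).s none = 1 := by rw [← h2, h1]; rfl
  exact h3

end hnn

end Pool.Agent.R665.FJ
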