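import Pool.Agent.R779.FJ.Col
import Pool.Agent.R779.FJ.Hnn
import Pool.Agent.Y417.FJ.Am
import Pool.Agent.Y812.SS.Wr

/-!
# Extensions of a group in the class by finitely supported functions with values in a group of the class
-/

set_option autoImplicit false

namespace Pool.Agent.R665.FJ

open Pool.Agent.Y110.FJ
open Pool.Agent.Y462.SS (Closed Wr)

theorem conj_s {V A : Type} [Group A] (g x : Wr V A) (hx : x.p = 1) (v : V) :
    (g * x * g⁻¹).s (g.p v) = g.s v * x.s v * (g.s v)⁻¹ := by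
  simp [hx]

theorem conj_p {V A : Type} [Group A] (g x : Wr V A) (hx : x.p = 1) :
    (g * x * g⁻¹).p = 1 := by
  simp [hx]

/-- the elements with trivial permutation which are supported in `T` -/
def supp (V A : Type) [Group A] (T : Set V) : Subgroup (Wr V A) where
  carrier := {x | x.p = 1 ∧ ∀ v, v ∉ T → x.s v = 1}
  one_mem' := ⟨rfl, fun _ _ => rfl⟩
  mul_mem' := by
    rintro a b ⟨ha, ha'⟩ ⟨hb, hb'⟩
    refine ⟨by simp [ha, hb], fun v hv => ?_⟩
    simp [hb, ha' v hv, hb' v hv]
  inv_mem' := by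
    rintro a ⟨ha, ha'⟩
    refine ⟨by simp [ha], fun v hv => ?_⟩
    simp [ha, ha' v hv]

/-- the restriction to `T` -/
def res (V A : Type) [Group A] (T : Set V) : supp V A T →* Wr T A where
  toFun x := ⟨fun t => x.1.s t, 1⟩
  map_one' := rfl
  map_mul' a b := by
    ext t
    · simp [b.2.1]
    · simp

theorem res_injective (V A : Type) [Group A] (T : Set V) : Function.Injective (res V A T) := by
  rw [injective_iff_map_eq_one]
  intro x hx
  apply Subtype.ext
  apply Wr.ext
  · funext v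
    by_cases hv : v ∈ T
    · have := congrArg (fun w => w.s ⟨v, hv⟩) hx
      exact this
    · exact x.2.2 v hv
  · exact x.2.1

theorem real_wr {V A : Type} [Group A] (g : Wr V A) (S T : Set V) (hT : T.Finite) (hST : S ⊆ T)
    (hgT : g.p '' S ⊆ T) :
    ∃ p : Wr T A, ∀ (x : Wr V A) (hx : x ∈ supp V A S) (hx' : x ∈ supp V A T)
      (hgx : g * x * g⁻¹ ∈ supp V A T), res V A T ⟨_, hgx⟩ = p * res V A T ⟨x, hx'⟩ * p⁻¹ := by
  classical
  have : Fintype T := hT.fintype
  let e : {t : T // (t : V) ∈ S} ≃ {t : T // (t : V) ∈ g.p '' S} :=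
    { toFun := fun t => ⟨⟨g.p t.1, hgT ⟨t.1, t.2, rfl⟩⟩, ⟨t.1, t.2, rfl⟩⟩
      invFun := fun t => ⟨⟨g.p.symm t.1, hST (by
        obtain ⟨s, hs, hst⟩ := t.2
        rw [← hst, Equiv.symm_apply_apply]; exact hs)⟩, by
        obtain ⟨s, hs, hst⟩ := t.2
        show g.p.symm t.1 ∈ S
        rw [← hst, Equiv.symm_apply_apply]; exact hs⟩
      left_inv := fun t => by
        apply Subtype.ext; apply Subtype.ext
        simp
      right_inv := fun t => by
        apply Subtype.ext; apply Subtype.ext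
        simp }
  let τ : Equiv.Perm T := e.extendSubtype
  have hτ : ∀ t : T, (t : V) ∈ S → ((τ t : T) : V) = g.p t := by
    intro t ht
    show ((e.extendSubtype t : T) : V) = g.p t
    rw [Equiv.extendSubtype_apply_of_mem e t ht]
    rfl
  have hτ' : ∀ t : T, (t : V) ∉ S → ((τ t : T) : V) ∉ g.p '' S := by
    intro t ht
    exact Equiv.extendSubtype_not_mem e t ht
  refine ⟨⟨fun t => g.s t, τ⟩, fun x hx hx' hgx => ?_⟩
  have h1 : (res V A T ⟨x, hx'⟩).p = 1 := rfl
  apply Wr.ext
  · funext t'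
    obtain ⟨t, rfl⟩ := τ.surjective t'
    have h2 := conj_s (⟨fun t => g.s t, τ⟩ : Wr T A) (res V A T ⟨x, hx'⟩) h1 t
    have h2' : ((⟨fun t => g.s t, τ⟩ : Wr T A) * (res V A T ⟨x, hx'⟩) *
      (⟨fun t => g.s t, τ⟩ : Wr T A)⁻¹).s (τ t) = g.s t * x.s t * (g.s t)⁻¹ := h2
    rw [h2']
    show (g * x * g⁻¹).s (τ t : T) = _
    by_cases ht : (t : V) ∈ S
    · rw [hτ t ht, conj_s g x hx.1]
    · rw [hx.2 _ ht, mul_one, mul_inv_cancel]
      have h3 := hτ' t ht
      have h4 : ((τ t : T) : V) = g.p (g.p.symm (τ t : T)) := by simp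
      rw [h4, conj_s g x hx.1, hx.2, mul_one, mul_inv_cancel]
      intro h5
      exact h3 ⟨_, h5, by simp⟩
  · rw [conj_p _ _ h1]
    rfl

/-- **extensions by finitely supported functions**: if `P` has homomorphisms `Φ` to the unrestricted
wreath product and `π` to a group in the class such that the elements of the kernel of `π` are mapped
by `Φ` injectively to finitely supported functions, then `P` is in the class. -/
theorem wr_crit {C : ∀ (G : Type) [Group G], Prop} (hC : ClosedE C) (V A P Z : Type) [Group A]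
    [Group P] [Group Z] (hA : C A) (hZ : C Z) (Φ : P →* Wr V A) (π : P →* Z)
    (hN : ∀ r, π r = 1 → (∃ T : Set V, T.Finite ∧ Φ r ∈ supp V A T) ∧ (Φ r = 1 → r = 1)) : C P := by
  refine Pool.Agent.R779.FJ.t_crit Pool.Agent.Y529.FJ.t_ext
    (Pool.Agent.Y961.FJ.t_perm Pool.Agent.Y529.FJ.t_ext) C hC P π.ker ?_ ?_
  · exact hC.base.of_injective _ Z (QuotientGroup.kerLift π) (QuotientGroup.kerLift_injective π) hZ
  · intro g E hE hEN
    have hch : ∀ x : P, ∃ T : Set V, x ∈ E → T.Finite ∧ Φ x ∈ supp V A T := by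
      intro x
      by_cases hx : x ∈ E
      · obtain ⟨T, hT, hT'⟩ := (hN x (hEN hx)).1
        exact ⟨T, fun _ => ⟨hT, hT'⟩⟩
      · exact ⟨∅, fun h => absurd h hx⟩
    choose T0 hT0 using hch
    let S : Set V := ⋃ x ∈ E, T0 x
    have hS : S.Finite := hE.biUnion fun x hx => (hT0 x hx).1
    let T : Set V := S ∪ (Φ g).p '' S
    have hT : T.Finite := hS.union (hS.image _)
    have hxS : ∀ x ∈ E, Φ x ∈ supp V A S := by
      intro x hx
      refine ⟨(hT0 x hx).2.1, fun v hv => (hT0 x hx).2.2 v fun h => hv ?_⟩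
      exact Set.mem_biUnion hx h
    have hxT : ∀ x ∈ E, Φ x ∈ supp V A T := by
      intro x hx
      exact ⟨(hxS x hx).1, fun v hv => (hxS x hx).2 v fun h => hv (Or.inl h)⟩
    have hgT : ∀ x ∈ E, Φ g * Φ x * (Φ g)⁻¹ ∈ supp V A T := by
      intro x hx
      refine ⟨conj_p _ _ (hxS x hx).1, fun v hv => ?_⟩
      have h1 : v = (Φ g).p ((Φ g).p.symm v) := by simp
      rw [h1, conj_s _ _ (hxS x hx).1, (hxS x hx).2, mul_one, mul_inv_cancel]
      intro h2
      exact hv (Or.inr ⟨_, h2, by simp⟩)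
    have hcl : ∀ x ∈ Subgroup.closure (E ∪ (fun x => g * x * g⁻¹) '' E), Φ x ∈ supp V A T := by
      intro x hx
      have h1 : Subgroup.closure (E ∪ (fun x => g * x * g⁻¹) '' E) ≤ (supp V A T).comap Φ := by
        rw [Subgroup.closure_le]
        rintro y (hy | ⟨x, hx, rfl⟩)
        · exact hxT y hy
        · show Φ (g * x * g⁻¹) ∈ supp V A T
          rw [map_mul, map_mul, map_inv]
          exact hgT x hx
      exact h1 hx
    have hker : Subgroup.closure (E ∪ (fun x => g * x * g⁻¹) '' E) ≤ π.ker := by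
      rw [Subgroup.closure_le]
      rintro y (hy | ⟨x, hx, rfl⟩)
      · exact hEN hy
      · exact (inferInstance : (π.ker).Normal).conj_mem x (hEN hx) g
    obtain ⟨p, hp⟩ := real_wr (Φ g) S T hT Set.subset_union_left Set.subset_union_right
    have : Finite T := hT
    refine ⟨Wr T A, inferInstance, (res V A T).comp ((Φ.comp (Subgroup.subtype _)).codRestrict
      (supp V A T) (fun x => hcl x.1 x.2)), p, ?_, ?_, ?_⟩
    · exact Pool.Agent.Y812.SS.t_wr C hC.base T A this hA
    · intro x y hxy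
      have h1 := res_injective V A T hxy
      have h2 : Φ x.1 = Φ y.1 := congrArg Subtype.val h1
      have h3 : Φ (x.1 * y.1⁻¹) = 1 := by rw [map_mul, map_inv, h2, mul_inv_cancel]
      have h4 : x.1 * y.1⁻¹ = 1 := (hN _ (π.ker.mul_mem (hker x.2) (π.ker.inv_mem (hker y.2)))).2 h3
      exact Subtype.ext (mul_inv_eq_one.1 h4)
    · intro x y hx hy
      have h1 := hp (Φ x.1) (hxS _ hx) (hxT _ hx) (hgT _ hx)
      show res V A T ⟨Φ y.1, _⟩ = p * res V A T ⟨Φ x.1, _⟩ * p⁻¹
      rw [← h1]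
      congr 1
      apply Subtype.ext
      show Φ y.1 = _
      rw [hy, map_mul, map_mul, map_inv]

end Pool.Agent.R665.FJ
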