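import Pool.Agent.R665.FJ.Am
import Pool.Agent.Y430.SS.Lf

/-!
# Groups with a presentation which is local with respect to cliques and compatible with killing blocks
-/

set_option autoImplicit false

namespace Pool.Agent.R665.FJ.Flag

open Pool.Agent.Y110.FJ

variable {X V : Type}

open Classical in
/-- the endomorphism of the free group which maps the generators of the block `v` to `1` -/
noncomputable def kill (β : X → V) (v : V) : FreeGroup X →* FreeGroup X :=
  FreeGroup.lift (fun x => if β x = v then 1 else FreeGroup.of x)

/-- the words in the generators of the blocks in `S` -/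
def words (β : X → V) (S : Set V) : Subgroup (FreeGroup X) :=
  Subgroup.closure (FreeGroup.of '' {x | β x ∈ S})

/-- the subgroup generated by the generators of the blocks in `S` -/
def blocks (β : X → V) (rels : Set (FreeGroup X)) (S : Set V) : Subgroup (PresentedGroup rels) :=
  Subgroup.closure (PresentedGroup.of '' {x | β x ∈ S})

/-- each relator is a word in the generators of finitely many pairwise adjacent blocks, and remains
a consequence of the relators if the generators of a block are replaced by `1` -/
structure FlagPres (β : X → V) (adj : V → V → Prop) (rels : Set (FreeGroup X)) : Prop where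
  loc : ∀ r ∈ rels, ∃ S : Finset V, (∀ v ∈ S, ∀ w ∈ S, v ≠ w → adj v w) ∧ r ∈ words β S
  kill : ∀ r ∈ rels, ∀ v : V, kill β v r ∈ Subgroup.normalClosure rels

section

variable {β : X → V} {adj : V → V → Prop} {rels : Set (FreeGroup X)}

open Classical in
/-- kill the blocks in `T` -/
noncomputable def killF (β : X → V) (T : Set V) : FreeGroup X →* FreeGroup X :=
  FreeGroup.lift (fun x => if β x ∈ T then 1 else FreeGroup.of x)

theorem killF_nc (hp : FlagPres β adj rels) (T : Finset V) :
    ∀ r ∈ rels, killF β (T : Set V) r ∈ Subgroup.normalClosure rels := by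
  classical
  induction T using Finset.induction_on with
  | empty =>
    intro r hr
    have : killF β ((∅ : Finset V) : Set V) = MonoidHom.id _ := by
      apply FreeGroup.ext_hom
      intro x
      simp [killF]
    rw [this]
    exact Subgroup.subset_normalClosure hr
  | insert v T hv ih =>
    intro r hr
    have h1 : killF β ((insert v T : Finset V) : Set V) = (kill β v).comp (killF β (T : Set V)) := by
      apply FreeGroup.ext_hom
      intro x
      simp only [killF, kill, FreeGroup.lift_apply_of, MonoidHom.comp_apply, Finset.coe_insert,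
        Set.mem_insert_iff, Finset.mem_coe]
      by_cases hT : β x ∈ T
      · rw [if_pos (Or.inr hT), if_pos hT, map_one]
      · by_cases hx : β x = v
        · rw [if_pos (Or.inl hx), if_neg hT, FreeGroup.lift_apply_of, if_pos hx]
        · rw [if_neg (by rintro (h | h); exacts [hx h, hT h]), if_neg hT,
            FreeGroup.lift_apply_of, if_neg hx]
    rw [h1, MonoidHom.comp_apply]
    have h2 : Subgroup.normalClosure rels ≤ (Subgroup.normalClosure rels).comap (kill β v) :=
      Subgroup.normalClosure_le_normal fun r hr => hp.kill r hr v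
    exact h2 (ih r hr)

theorem words_eqOn {H : Type} [Group H] {f g : FreeGroup X →* H} {S : Set V}
    (h : ∀ x, β x ∈ S → f (FreeGroup.of x) = g (FreeGroup.of x)) (w : FreeGroup X)
    (hw : w ∈ words β S) : f w = g w := by
  have h1 : words β S ≤ f.eqLocus g := by
    rw [words, Subgroup.closure_le]
    rintro _ ⟨x, hx, rfl⟩
    exact h x hx
  exact h1 hw

theorem mk_killF (hp : FlagPres β adj rels) (T : Set V) (r : FreeGroup X) (hr : r ∈ rels) :
    PresentedGroup.mk rels (killF β T r) = 1 := by
  classical
  obtain ⟨S, -, hS⟩ := hp.loc r hr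
  have h1 : killF β T r = killF β ((S.filter (· ∈ T) : Finset V) : Set V) r := by
    refine words_eqOn (β := β) (S := (S : Set V)) ?_ r hS
    intro x hx
    simp only [killF, FreeGroup.lift_apply_of, Finset.coe_filter, Set.mem_ofPred_eq]
    by_cases hT : β x ∈ T
    · rw [if_pos hT, if_pos ⟨hx, hT⟩]
    · rw [if_neg hT, if_neg (fun h => hT h.2)]
  rw [h1]
  exact (QuotientGroup.eq_one_iff _).2 (killF_nc hp _ r hr)

theorem of_mem {S : Set V} {x : X} (h : β x ∈ S) :
    (PresentedGroup.of x : PresentedGroup rels) ∈ blocks β rels S :=
  Subgroup.subset_closure ⟨x, h, rfl⟩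

theorem blocks_mono {S T : Set V} (h : S ⊆ T) : blocks β rels S ≤ blocks β rels T :=
  Subgroup.closure_mono (Set.image_mono fun _ hx => h hx)

theorem exists_fin (g : PresentedGroup rels) : ∃ U : Finset V, g ∈ blocks β rels (U : Set V) := by
  classical
  have hx : g ∈ Subgroup.closure (Set.range (PresentedGroup.of (rels := rels))) := by
    rw [PresentedGroup.closure_range_of]
    trivial
  induction hx using Subgroup.closure_induction with
  | mem x hx =>
    obtain ⟨v, rfl⟩ := hx
    exact ⟨{β v}, of_mem (by simp)⟩
  | one => exact ⟨∅, Subgroup.one_mem _⟩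
  | mul x y _ _ hx hy =>
    obtain ⟨U, hU⟩ := hx
    obtain ⟨U', hU'⟩ := hy
    refine ⟨U ∪ U', Subgroup.mul_mem _ (blocks_mono ?_ hU) (blocks_mono ?_ hU')⟩
    · simp
    · simp
  | inv x _ hx =>
    obtain ⟨U, hU⟩ := hx
    exact ⟨U, Subgroup.inv_mem _ hU⟩

open Classical in
/-- the retraction of the group which kills the block `v` -/
noncomputable def killG (hp : FlagPres β adj rels) (v : V) :
    PresentedGroup rels →* PresentedGroup rels :=
  PresentedGroup.toGroup (f := fun x => if β x = v then 1 else PresentedGroup.of x) (by
    intro r hr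
    have h1 : FreeGroup.lift (fun x => if β x = v then 1 else PresentedGroup.of x) =
        (PresentedGroup.mk rels).comp (killF β {v}) := by
      apply FreeGroup.ext_hom
      intro x
      simp only [killF, FreeGroup.lift_apply_of, MonoidHom.comp_apply, Set.mem_singleton_iff]
      by_cases h : β x = v
      · rw [if_pos h, if_pos h, map_one]
      · rw [if_neg h, if_neg h]
        rfl
    rw [h1, MonoidHom.comp_apply]
    exact mk_killF hp _ r hr)

open Classical in
theorem killG_of (hp : FlagPres β adj rels) (v : V) (x : X) :
    killG hp v (PresentedGroup.of x) = if β x = v then 1 else PresentedGroup.of x := by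
  unfold killG
  exact PresentedGroup.toGroup.of _

theorem killG_mem (hp : FlagPres β adj rels) (v : V) (S : Set V) (g : PresentedGroup rels)
    (hg : g ∈ blocks β rels S) : killG hp v g ∈ blocks β rels (S \ {v}) := by
  have h1 : blocks β rels S ≤ (blocks β rels (S \ {v})).comap (killG hp v) := by
    rw [blocks, Subgroup.closure_le]
    rintro _ ⟨x, hx, rfl⟩
    show killG hp v (PresentedGroup.of x) ∈ blocks β rels (S \ {v})
    rw [killG_of]
    by_cases h : β x = v
    · rw [if_pos h]
      exact Subgroup.one_mem _
    · rw [if_neg h]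
      exact of_mem ⟨hx, h⟩
  exact h1 hg

theorem killG_eq (hp : FlagPres β adj rels) (v : V) (S : Set V) (hv : v ∉ S)
    (g : PresentedGroup rels) (hg : g ∈ blocks β rels S) : killG hp v g = g := by
  have h1 : blocks β rels S ≤ (killG hp v).eqLocus (MonoidHom.id _) := by
    rw [blocks, Subgroup.closure_le]
    rintro _ ⟨x, hx, rfl⟩
    show killG hp v (PresentedGroup.of x) = PresentedGroup.of x
    rw [killG_of, if_neg]
    rintro rfl
    exact hv hx
  exact h1 hg

/-- the decomposition as an amalgamated product -/
theorem amg (hp : FlagPres β adj rels) (U : Set V) (x y : V) (hxy : x ≠ y)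
    (hadj : ¬ adj x y) :
    Amg ((blocks β rels (U \ {x})).subgroupOf (blocks β rels U))
      ((blocks β rels (U \ {y})).subgroupOf (blocks β rels U))
      ((blocks β rels (U \ {x, y})).subgroupOf (blocks β rels U)) := by
  classical
  have hKx : U \ {x, y} ⊆ U \ {x} := fun v hv => ⟨hv.1, fun h => hv.2 (Or.inl h)⟩
  have hKy : U \ {x, y} ⊆ U \ {y} := fun v hv => ⟨hv.1, fun h => hv.2 (Or.inr h)⟩
  refine ⟨Subgroup.comap_mono (blocks_mono hKx), Subgroup.comap_mono (blocks_mono hKy), ?_, ?_⟩
  · rw [eq_top_iff]
    rintro ⟨g, hg⟩ -
    have h2 : blocks β rels U ≤ ((blocks β rels (U \ {x})).subgroupOf (blocks β rels U) ⊔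
        (blocks β rels (U \ {y})).subgroupOf (blocks β rels U)).map (blocks β rels U).subtype := by
      conv_lhs => rw [blocks]
      rw [Subgroup.closure_le]
      rintro _ ⟨z, hz, rfl⟩
      refine ⟨⟨PresentedGroup.of z, of_mem hz⟩, ?_, rfl⟩
      by_cases h : β z = x
      · refine (le_sup_right : (blocks β rels (U \ {y})).subgroupOf (blocks β rels U) ≤ _) ?_
        exact of_mem (β := β) ⟨hz, fun h' => hxy (h.symm.trans h')⟩
      · refine (le_sup_left : (blocks β rels (U \ {x})).subgroupOf (blocks β rels U) ≤ _) ?_
        exact of_mem (β := β) ⟨hz, h⟩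
    obtain ⟨y', hy', hyx⟩ := h2 hg
    have : y' = ⟨g, hg⟩ := Subtype.ext hyx
    rwa [← this]
  · intro H _ f g hfg
    -- the homomorphisms from the free group to the two factors
    have hA : ∀ u : V, ∀ T : Set V, T ⊆ U → ∀ z : X, β z ∈ T →
        (PresentedGroup.of z : PresentedGroup rels) ∈ blocks β rels U := fun _ T hT z hz =>
      of_mem (hT hz)
    have key : ∀ T : Set V, T ⊆ U → ∃ p : FreeGroup X →*
        ↥((blocks β rels T).subgroupOf (blocks β rels U)),
        (∀ z (hz : β z ∈ T) (hz' : (PresentedGroup.of z : PresentedGroup rels) ∈ blocks β rels U)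
          (hz'' : (⟨PresentedGroup.of z, hz'⟩ : ↥(blocks β rels U)) ∈
            (blocks β rels T).subgroupOf (blocks β rels U)),
          p (FreeGroup.of z) = ⟨⟨PresentedGroup.of z, hz'⟩, hz''⟩) ∧
        (∀ z, β z ∉ T → p (FreeGroup.of z) = 1) ∧ ∀ r ∈ rels, p r = 1 := by
      intro T hT
      refine ⟨FreeGroup.lift (fun z => if hz : β z ∈ T then
        ⟨⟨PresentedGroup.of z, of_mem (hT hz)⟩, of_mem (β := β) hz⟩ else 1), ?_, ?_, ?_⟩
      · intro z hz hz' hz''
        rw [FreeGroup.lift_apply_of, dif_pos hz]
      · intro z hz
        rw [FreeGroup.lift_apply_of, dif_neg hz]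
      · intro r hr
        have h1 : ((blocks β rels U).subtype.comp
            ((blocks β rels T).subgroupOf (blocks β rels U)).subtype).comp
            (FreeGroup.lift (fun z => if hz : β z ∈ T then
              (⟨⟨PresentedGroup.of z, of_mem (hT hz)⟩, of_mem (β := β) hz⟩ :
                ↥((blocks β rels T).subgroupOf (blocks β rels U))) else 1)) =
            (PresentedGroup.mk rels).comp (killF β Tᶜ) := by
          apply FreeGroup.ext_hom
          intro z
          simp only [killF, FreeGroup.lift_apply_of, MonoidHom.comp_apply, Set.mem_compl_iff]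
          by_cases h : β z ∈ T
          · rw [dif_pos h, if_neg (fun h' => h' h)]
            rfl
          · rw [dif_neg h, if_pos h, map_one, map_one, map_one]
        have h2 := DFunLike.congr_fun h1 r
        rw [MonoidHom.comp_apply, MonoidHom.comp_apply, MonoidHom.comp_apply,
          mk_killF hp _ r hr] at h2
        apply Subtype.ext
        apply Subtype.ext
        exact h2
    obtain ⟨pA, hA1, hA2, hA3⟩ := key (U \ {x}) Set.sdiff_subset
    obtain ⟨pB, hB1, hB2, hB3⟩ := key (U \ {y}) Set.sdiff_subset
    let F : X → H := fun z => if β z = x then g (pB (FreeGroup.of z)) else f (pA (FreeGroup.of z))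
    have hF : ∀ r ∈ rels, FreeGroup.lift F r = 1 := by
      intro r hr
      obtain ⟨S, hS, hrS⟩ := hp.loc r hr
      by_cases hx : x ∈ S
      · have hy : y ∉ S := fun hy => hadj (hS x hx y hy hxy)
        have h1 : FreeGroup.lift F r = (g.comp pB) r := by
          refine words_eqOn (β := β) (S := (S : Set V)) ?_ r hrS
          intro z hz
          rw [FreeGroup.lift_apply_of, MonoidHom.comp_apply]
          show (if β z = x then g (pB (FreeGroup.of z)) else f (pA (FreeGroup.of z))) = _
          by_cases h : β z = x
          · rw [if_pos h]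
          · rw [if_neg h]
            have hzy : β z ≠ y := by
              rintro rfl
              exact hy hz
            by_cases hU : β z ∈ U
            · rw [hA1 z ⟨hU, h⟩ (of_mem hU) (of_mem (β := β) ⟨hU, h⟩),
                hB1 z ⟨hU, hzy⟩ (of_mem hU) (of_mem (β := β) ⟨hU, hzy⟩)]
              refine hfg ⟨PresentedGroup.of z, of_mem hU⟩ ?_
              exact of_mem (β := β) ⟨hU, by
                rintro (h' | h')
                · exact h h'
                · exact hzy h'⟩
            · rw [hA2 z (fun h' => hU h'.1), hB2 z (fun h' => hU h'.1), map_one, map_one]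
        rw [h1, MonoidHom.comp_apply, hB3 r hr, map_one]
      · have h1 : FreeGroup.lift F r = (f.comp pA) r := by
          refine words_eqOn (β := β) (S := (S : Set V)) ?_ r hrS
          intro z hz
          rw [FreeGroup.lift_apply_of, MonoidHom.comp_apply]
          show (if β z = x then g (pB (FreeGroup.of z)) else f (pA (FreeGroup.of z))) = _
          rw [if_neg]
          rintro rfl
          exact hx hz
        rw [h1, MonoidHom.comp_apply, hA3 r hr, map_one]
    refine ⟨(PresentedGroup.toGroup hF).comp (blocks β rels U).subtype, ?_, ?_⟩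
    · have aux : ∀ (a : PresentedGroup rels) (ha : a ∈ blocks β rels (U \ {x}))
          (ha' : a ∈ blocks β rels U)
          (ha'' : (⟨a, ha'⟩ : ↥(blocks β rels U)) ∈ (blocks β rels (U \ {x})).subgroupOf
            (blocks β rels U)), PresentedGroup.toGroup hF a = f ⟨⟨a, ha'⟩, ha''⟩ := by
        intro a ha
        induction ha using Subgroup.closure_induction with
        | mem w hw =>
          intro ha' ha''
          obtain ⟨z, hz, rfl⟩ := hw
          have h3 : PresentedGroup.toGroup hF (PresentedGroup.of z) = F z :=
            PresentedGroup.toGroup.of hF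
          rw [h3]
          have hz' : β z ∈ U \ {x} := hz
          have hzx : β z ≠ x := fun h => hz'.2 h
          show (if β z = x then g (pB (FreeGroup.of z)) else f (pA (FreeGroup.of z))) = _
          rw [if_neg hzx, hA1 z hz' (of_mem hz'.1) (of_mem (β := β) hz')]
        | one =>
          intro ha' ha''
          rw [map_one]
          exact (map_one f).symm
        | mul u w hu hw ihu ihw =>
          intro ha' ha''
          have hu' : u ∈ blocks β rels U := blocks_mono Set.sdiff_subset hu
          have hw' : w ∈ blocks β rels U := blocks_mono Set.sdiff_subset hw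
          rw [map_mul, ihu hu' hu, ihw hw' hw, ← map_mul]
          rfl
        | inv u hu ihu =>
          intro ha' ha''
          have hu' : u ∈ blocks β rels U := blocks_mono Set.sdiff_subset hu
          rw [map_inv, ihu hu' hu, ← map_inv]
          rfl
      rintro ⟨⟨a, ha'⟩, ha⟩
      exact aux a ha ha' ha
    · have aux : ∀ (a : PresentedGroup rels) (ha : a ∈ blocks β rels (U \ {y}))
          (ha' : a ∈ blocks β rels U)
          (ha'' : (⟨a, ha'⟩ : ↥(blocks β rels U)) ∈ (blocks β rels (U \ {y})).subgroupOf
            (blocks β rels U)), PresentedGroup.toGroup hF a = g ⟨⟨a, ha'⟩, ha''⟩ := by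
        intro a ha
        induction ha using Subgroup.closure_induction with
        | mem w hw =>
          intro ha' ha''
          obtain ⟨z, hz, rfl⟩ := hw
          have h3 : PresentedGroup.toGroup hF (PresentedGroup.of z) = F z :=
            PresentedGroup.toGroup.of hF
          rw [h3]
          have hz' : β z ∈ U \ {y} := hz
          have hzy : β z ≠ y := fun h => hz'.2 h
          show (if β z = x then g (pB (FreeGroup.of z)) else f (pA (FreeGroup.of z))) = _
          by_cases h : β z = x
          · rw [if_pos h, hB1 z hz' (of_mem hz'.1) (of_mem (β := β) hz')]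
          · rw [if_neg h, hA1 z ⟨hz'.1, h⟩ (of_mem hz'.1) (of_mem (β := β) ⟨hz'.1, h⟩)]
            refine hfg ⟨PresentedGroup.of z, of_mem hz'.1⟩ ?_
            exact of_mem (β := β) ⟨hz'.1, by
              rintro (h' | h')
              · exact h h'
              · exact hzy h'⟩
        | one =>
          intro ha' ha''
          rw [map_one]
          exact (map_one g).symm
        | mul u w hu hw ihu ihw =>
          intro ha' ha''
          have hu' : u ∈ blocks β rels U := blocks_mono Set.sdiff_subset hu
          have hw' : w ∈ blocks β rels U := blocks_mono Set.sdiff_subset hw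
          rw [map_mul, ihu hu' hu, ihw hw' hw, ← map_mul]
          rfl
        | inv u hu ihu =>
          intro ha' ha''
          have hu' : u ∈ blocks β rels U := blocks_mono Set.sdiff_subset hu
          rw [map_inv, ihu hu' hu, ← map_inv]
          rfl
      rintro ⟨⟨a, ha'⟩, ha⟩
      exact aux a ha ha' ha

theorem blocks_mem {C : ∀ (G : Type) [Group G], Prop} (hC : ClosedE C) (hp : FlagPres β adj rels)
    (hcl : ∀ S : Finset V, (∀ v ∈ S, ∀ w ∈ S, v ≠ w → adj v w) → C ↥(blocks β rels (S : Set V)))
    (U : Finset V) : C ↥(blocks β rels (U : Set V)) := by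
  classical
  induction U using Finset.strongInduction with
  | H U ih =>
    by_cases hU : ∀ v ∈ U, ∀ w ∈ U, v ≠ w → adj v w
    · exact hcl U hU
    · push Not at hU
      obtain ⟨x, hx, y, hy, hxy, hadj⟩ := hU
      have hsx : ((U.erase x : Finset V) : Set V) = (U : Set V) \ {x} := by simp
      have hsy : ((U.erase y : Finset V) : Set V) = (U : Set V) \ {y} := by simp
      have h1 := ih _ (Finset.erase_ssubset hx)
      have h2 := ih _ (Finset.erase_ssubset hy)
      rw [hsx] at h1
      rw [hsy] at h2
      refine am hC ((blocks β rels ((U : Set V) \ {x})).subgroupOf (blocks β rels (U : Set V)))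
        ((blocks β rels ((U : Set V) \ {y})).subgroupOf (blocks β rels (U : Set V)))
        ((blocks β rels ((U : Set V) \ {x, y})).subgroupOf (blocks β rels (U : Set V)))
        ?_ ?_ h1 (amg hp (U : Set V) x y hxy hadj)
        (((killG hp x).comp (blocks β rels (U : Set V)).subtype).codRestrict
          (blocks β rels ((U : Set V) \ {x})) (fun g => killG_mem hp x _ g.1 g.2)) ?_
      · refine hC.base.of_injective _ ↥(blocks β rels ((U : Set V) \ {x}))
          { toFun := fun a => ⟨a.1.1, a.2⟩, map_one' := rfl, map_mul' := fun _ _ => rfl } ?_ h1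
        intro a b h
        apply Subtype.ext
        apply Subtype.ext
        exact congrArg (fun z : ↥(blocks β rels ((U : Set V) \ {x})) => z.1) h
      · refine hC.base.of_injective _ ↥(blocks β rels ((U : Set V) \ {y}))
          { toFun := fun a => ⟨a.1.1, a.2⟩, map_one' := rfl, map_mul' := fun _ _ => rfl } ?_ h2
        intro a b h
        apply Subtype.ext
        apply Subtype.ext
        exact congrArg (fun z : ↥(blocks β rels ((U : Set V) \ {y})) => z.1) h
      · rintro ⟨k, hk'⟩ hk h
        have hk2 : k ∈ blocks β rels ((U : Set V) \ {x, y}) := hk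
        have h3 : killG hp x k = 1 := congrArg Subtype.val h
        rw [killG_eq hp x _ (fun h' => h'.2 (Or.inl rfl)) k hk2] at h3
        exact Subtype.ext h3

/-- **flag presentations** -/
theorem flag {C : ∀ (G : Type) [Group G], Prop} (hC : ClosedE C) (hp : FlagPres β adj rels)
    (hcl : ∀ S : Finset V, (∀ v ∈ S, ∀ w ∈ S, v ≠ w → adj v w) →
      C ↥(blocks β rels (S : Set V))) : C (PresentedGroup rels) := by
  classical
  refine Pool.Agent.Y430.SS.of_directed hC.base _ (Finset V)
    (fun i j => ⟨i ∪ j, Finset.subset_union_left, Finset.subset_union_right⟩)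
    (fun U => blocks β rels (U : Set V)) (fun S T h => blocks_mono (by exact_mod_cast h))
    (fun g => exists_fin g) (fun U => blocks_mem hC hp hcl U)

end

/-! ### Artin groups and Shephard groups -/

/-- the alternating word `a b a ⋯` of length `n` -/
def alt {G : Type} [Group G] : G → G → ℕ → G
  | _, _, 0 => 1
  | a, b, n + 1 => a * alt b a n

theorem map_alt {G H : Type} [Group G] [Group H] (f : G →* H) (n : ℕ) :
    ∀ a b : G, f (alt a b n) = alt (f a) (f b) n := by
  induction n with
  | zero => intro a b; exact map_one f
  | succ n ih => intro a b; rw [alt, alt, map_mul, ih]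

theorem alt_one_left {G : Type} [Group G] (b : G) (k : ℕ) : alt 1 b (2 * k) = b ^ k := by
  induction k with
  | zero => simp [alt]
  | succ k ih => rw [show 2 * (k + 1) = 2 * k + 1 + 1 by ring, alt, alt, ih, one_mul, pow_succ']

theorem alt_one_right {G : Type} [Group G] (b : G) (k : ℕ) : alt b 1 (2 * k) = b ^ k := by
  induction k with
  | zero => simp [alt]
  | succ k ih => rw [show 2 * (k + 1) = 2 * k + 1 + 1 by ring, alt, alt, ih, one_mul, pow_succ']

theorem alt_one_one {G : Type} [Group G] (n : ℕ) : alt (1 : G) 1 n = 1 := by
  induction n with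
  | zero => rfl
  | succ n ih => rw [alt, ih, one_mul]

/-- the relators `x y x ⋯ = y x y ⋯` of length `m x y` (no relation if `m x y = 0`) and
`x ^ (p x) = 1` (no relation if `p x = 0`) -/
def artin (m : X → X → ℕ) (p : X → ℕ) : Set (FreeGroup X) :=
  {r | ∃ x y : X, x ≠ y ∧ r = alt (FreeGroup.of x) (FreeGroup.of y) (m x y) *
    (alt (FreeGroup.of y) (FreeGroup.of x) (m x y))⁻¹} ∪ {r | ∃ x : X, r = FreeGroup.of x ^ p x}

/-- two blocks are adjacent if some generators in them are joined by a label -/
def Joined (β : X → V) (m : X → X → ℕ) (v w : V) : Prop :=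
  ∃ x y : X, m x y ≠ 0 ∧ (β x = v ∧ β y = w ∨ β x = w ∧ β y = v)

theorem alt_words {β : X → V} {S : Set V} (n : ℕ) : ∀ x y : X, β x ∈ S → β y ∈ S →
    alt (FreeGroup.of x) (FreeGroup.of y) n ∈ words β S := by
  induction n with
  | zero => intro x y _ _; exact Subgroup.one_mem _
  | succ n ih =>
    intro x y hx hy
    exact Subgroup.mul_mem _ (Subgroup.subset_closure ⟨x, hx, rfl⟩) (ih y x hy hx)

theorem artin_flag (β : X → V) (m : X → X → ℕ) (p : X → ℕ)
    (hodd : ∀ x y, Odd (m x y) → β x = β y) : FlagPres β (Joined β m) (artin m p) := by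
  classical
  have hk : ∀ (v : V) (z : X), kill β v (FreeGroup.of z) =
      if β z = v then 1 else FreeGroup.of z := by
    intro v z
    rw [kill, FreeGroup.lift_apply_of]
  refine ⟨?_, ?_⟩
  · rintro _ (⟨x, y, hxy, rfl⟩ | ⟨x, rfl⟩)
    · by_cases h0 : m x y = 0
      · refine ⟨∅, by simp, ?_⟩
        rw [h0]
        have : alt (FreeGroup.of x) (FreeGroup.of y) 0 *
            (alt (FreeGroup.of y) (FreeGroup.of x) 0)⁻¹ = (1 : FreeGroup X) := by
          show (1 : FreeGroup X) * 1⁻¹ = 1
          rw [inv_one, mul_one]
        rw [this]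
        exact Subgroup.one_mem _
      · refine ⟨{β x, β y}, ?_, ?_⟩
        · intro v hv w hw hvw
          simp only [Finset.mem_insert, Finset.mem_singleton] at hv hw
          rcases hv with rfl | rfl <;> rcases hw with rfl | rfl
          · exact absurd rfl hvw
          · exact ⟨x, y, h0, Or.inl ⟨rfl, rfl⟩⟩
          · exact ⟨x, y, h0, Or.inr ⟨rfl, rfl⟩⟩
          · exact absurd rfl hvw
        · exact Subgroup.mul_mem _ (alt_words _ _ _ (by simp) (by simp))
            (Subgroup.inv_mem _ (alt_words _ _ _ (by simp) (by simp)))
    · refine ⟨{β x}, ?_, ?_⟩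
      · intro v hv w hw hvw
        rw [Finset.mem_singleton] at hv hw
        exact absurd (hv.trans hw.symm) hvw
      · have h1 : FreeGroup.of x ∈ words β (({β x} : Finset V) : Set V) :=
          Subgroup.subset_closure ⟨x, by simp, rfl⟩
        exact Subgroup.pow_mem _ h1 _
  · rintro _ (⟨x, y, hxy, rfl⟩ | ⟨x, rfl⟩) v
    · rw [map_mul, map_inv, map_alt, map_alt, hk, hk]
      by_cases hx : β x = v
      · by_cases hy : β y = v
        · rw [if_pos hx, if_pos hy, alt_one_one, inv_one, mul_one]
          exact Subgroup.one_mem _
        · have he : ¬ Odd (m x y) := fun h => hy ((hodd x y h).symm.trans hx)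
          rw [Nat.not_odd_iff_even] at he
          obtain ⟨k, hk'⟩ := he
          rw [if_pos hx, if_neg hy, hk', ← two_mul, alt_one_left, alt_one_right, mul_inv_cancel]
          exact Subgroup.one_mem _
      · by_cases hy : β y = v
        · have he : ¬ Odd (m x y) := fun h => hx ((hodd x y h).trans hy)
          rw [Nat.not_odd_iff_even] at he
          obtain ⟨k, hk'⟩ := he
          rw [if_neg hx, if_pos hy, hk', ← two_mul, alt_one_left, alt_one_right, mul_inv_cancel]
          exact Subgroup.one_mem _
        · rw [if_neg hx, if_neg hy]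
          exact Subgroup.subset_normalClosure (Or.inl ⟨x, y, hxy, rfl⟩)
    · rw [map_pow, hk]
      by_cases hx : β x = v
      · rw [if_pos hx, one_pow]
        exact Subgroup.one_mem _
      · rw [if_neg hx]
        exact Subgroup.subset_normalClosure (Or.inr ⟨x, rfl⟩)

end Pool.Agent.R665.FJ.Flag
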